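import Mathlib
import Pool.Agent.H933R3.Evas

/-!
# Suspensions of locally constructible complexes
-/

set_option autoImplicit false
set_option linter.unusedSectionVars false

namespace Pool.Agent.Y857.LB

open Finset Pool.Agent.H933R3

variable {V W : Type} [DecidableEq V] [DecidableEq W]

/-- the suspension of `K`, with its vertices renamed by `f`, and suspension points `a`, `b` -/
def sus (f : V ↪ W) (a b : W) (K : Finset (Finset V)) : Finset (Finset W) :=
  K.image (fun F : Finset V => F.map f) ∪ (K.image (fun F => insert a (F.map f)) ∪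
    K.image (fun F => insert b (F.map f)))

/-- standing assumptions -/
structure Pos (f : V ↪ W) (a b : W) : Prop where
  ha : ∀ v, f v ≠ a
  hb : ∀ v, f v ≠ b
  hab : a ≠ b

section basic
variable {f : V ↪ W} {a b : W} {K : Finset (Finset V)}

theorem Pos.symm (h : Pos f a b) : Pos f b a := ⟨h.hb, h.ha, h.hab.symm⟩

theorem sus_comm : sus f a b K = sus f b a K := by
  unfold sus
  rw [union_comm (K.image fun F => insert a (F.map f))]

theorem mem_sus {s : Finset W} : s ∈ sus f a b K ↔
    (∃ F ∈ K, F.map f = s) ∨ (∃ F ∈ K, insert a (F.map f) = s) ∨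
      (∃ F ∈ K, insert b (F.map f) = s) := by
  simp only [sus, mem_union, mem_image]

theorem a_notMem (h : Pos f a b) (F : Finset V) : a ∉ F.map f := by
  intro h1
  obtain ⟨v, -, hv⟩ := mem_map.1 h1
  exact h.ha v hv

theorem b_notMem (h : Pos f a b) (F : Finset V) : b ∉ F.map f := by
  intro h1
  obtain ⟨v, -, hv⟩ := mem_map.1 h1
  exact h.hb v hv

theorem A_sub (h : Pos f a b) {F G : Finset V} :
    insert a (F.map f) ⊆ insert a (G.map f) ↔ F ⊆ G := by
  rw [← map_subset_map (f := f)]
  constructor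
  · intro h1 x hx
    have := h1 (mem_insert_of_mem hx)
    rw [mem_insert] at this
    rcases this with h2 | h2
    · rw [h2] at hx
      exact absurd hx (a_notMem h F)
    · exact h2
  · intro h1
    exact insert_subset_insert _ h1

theorem A_inj (h : Pos f a b) {F G : Finset V} (e : insert a (F.map f) = insert a (G.map f)) :
    F = G :=
  Subset.antisymm ((A_sub h).1 e.subset) ((A_sub h).1 e.symm.subset)

theorem B_inj (h : Pos f a b) {F G : Finset V} (e : insert b (F.map f) = insert b (G.map f)) :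
    F = G := A_inj h.symm e

theorem up_inj {F G : Finset V} (e : F.map f = G.map f) : F = G := map_injective f e

theorem A_ne_B (h : Pos f a b) (F G : Finset V) : insert a (F.map f) ≠ insert b (G.map f) := by
  intro e
  have : a ∈ insert b (G.map f) := by rw [← e]; exact mem_insert_self _ _
  rw [mem_insert] at this
  rcases this with h1 | h1
  · exact h.hab h1
  · exact a_notMem h G h1

theorem A_ne_up (h : Pos f a b) (F G : Finset V) : insert a (F.map f) ≠ G.map f := by
  intro e
  have : a ∈ G.map f := by rw [← e]; exact mem_insert_self _ _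
  exact a_notMem h G this

theorem card_A (h : Pos f a b) (F : Finset V) : (insert a (F.map f)).card = F.card + 1 := by
  rw [card_insert_of_notMem (a_notMem h F), card_map]

theorem card_B (h : Pos f a b) (F : Finset V) : (insert b (F.map f)).card = F.card + 1 :=
  card_A h.symm F

theorem isCx_sus (hK : IsCx K) : IsCx (sus f a b K) := by
  refine ⟨mem_sus.2 (Or.inl ⟨∅, hK.1, by simp⟩), ?_⟩
  intro s hs t ht
  have key : ∀ F ∈ K, ∀ t ⊆ F.map f, ∃ G ∈ K, G.map f = t := by
    intro F hF t ht
    refine ⟨F.filter (fun v => f v ∈ t), hK.2 F hF _ (filter_subset _ _), ?_⟩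
    ext x
    rw [mem_map]
    constructor
    · rintro ⟨v, hv, rfl⟩
      exact (mem_filter.1 hv).2
    · intro hx
      obtain ⟨v, hv, rfl⟩ := mem_map.1 (ht hx)
      exact ⟨v, mem_filter.2 ⟨hv, hx⟩, rfl⟩
  rw [mem_sus] at hs ⊢
  rcases hs with ⟨F, hF, rfl⟩ | ⟨F, hF, rfl⟩ | ⟨F, hF, rfl⟩
  · exact Or.inl (key F hF t ht)
  · by_cases hat : a ∈ t
    · obtain ⟨G, hG, hGt⟩ := key F hF (t.erase a) (by
        intro x hx
        rw [mem_erase] at hx
        have := ht hx.2
        rw [mem_insert] at this
        exact this.resolve_left hx.1)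
      exact Or.inr (Or.inl ⟨G, hG, by rw [hGt, insert_erase hat]⟩)
    · exact Or.inl (key F hF t (fun x hx => by
        have := ht hx
        rw [mem_insert] at this
        exact this.resolve_left (fun h => hat (h ▸ hx))))
  · by_cases hbt : b ∈ t
    · obtain ⟨G, hG, hGt⟩ := key F hF (t.erase b) (by
        intro x hx
        rw [mem_erase] at hx
        have := ht hx.2
        rw [mem_insert] at this
        exact this.resolve_left hx.1)
      exact Or.inr (Or.inr ⟨G, hG, by rw [hGt, insert_erase hbt]⟩)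
    · exact Or.inl (key F hF t (fun x hx => by
        have := ht hx
        rw [mem_insert] at this
        exact this.resolve_left (fun h => hbt (h ▸ hx))))

theorem facet_A (h : Pos f a b) {F : Finset V} (hF : IsFacet K F) :
    IsFacet (sus f a b K) (insert a (F.map f)) := by
  refine ⟨mem_sus.2 (Or.inr (Or.inl ⟨F, hF.1, rfl⟩)), ?_⟩
  intro G hG hFG
  have haG : a ∈ G := hFG (mem_insert_self _ _)
  rcases mem_sus.1 hG with ⟨G', hG', rfl⟩ | ⟨G', hG', rfl⟩ | ⟨G', hG', rfl⟩
  · exact absurd haG (a_notMem h G')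
  · rw [hF.2 G' hG' ((A_sub h).1 hFG)]
  · rw [mem_insert] at haG
    rcases haG with h1 | h1
    · exact absurd h1 h.hab
    · exact absurd h1 (a_notMem h G')

theorem facet_B (h : Pos f a b) {F : Finset V} (hF : IsFacet K F) :
    IsFacet (sus f a b K) (insert b (F.map f)) := by
  rw [sus_comm]; exact facet_A h.symm hF

theorem facet_sus (h : Pos f a b) {X : Finset W} (hX : IsFacet (sus f a b K) X) :
    (∃ F, IsFacet K F ∧ insert a (F.map f) = X) ∨ (∃ F, IsFacet K F ∧ insert b (F.map f) = X) := by
  have key : ∀ (a b : W), Pos f a b → IsFacet (sus f a b K) X → ∀ F ∈ K, insert a (F.map f) = X →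
      IsFacet K F := by
    intro a b h hX F hF hFX
    refine ⟨hF, fun G hG hFG => ?_⟩
    have h1 := hX.2 (insert a (G.map f)) (mem_sus.2 (Or.inr (Or.inl ⟨G, hG, rfl⟩)))
      (by rw [← hFX]; exact (A_sub h).2 hFG)
    rw [← hFX] at h1
    exact A_inj h h1
  rcases mem_sus.1 hX.1 with ⟨F, hF, hFX⟩ | ⟨F, hF, hFX⟩ | ⟨F, hF, hFX⟩
  · exfalso
    have h1 := hX.2 (insert a (F.map f)) (mem_sus.2 (Or.inr (Or.inl ⟨F, hF, rfl⟩)))
      (by rw [← hFX]; exact subset_insert _ _)
    exact A_ne_up h F F (h1.trans hFX.symm)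
  · exact Or.inl ⟨F, key a b h hX F hF hFX, hFX⟩
  · exact Or.inr ⟨F, key b a h.symm (by rw [sus_comm]; exact hX) F hF hFX, hFX⟩

end basic

section lc
variable {f : V ↪ W} {a b : W} {K : Finset (Finset V)} {d : ℕ}

/-- the lifted family of facets -/
def FS (f : V ↪ W) (a b : W) (𝓕 : Finset (Finset V)) : Finset (Finset W) :=
  𝓕.image (fun F => insert a (F.map f)) ∪ 𝓕.image (fun F => insert b (F.map f))

/-- the lifted family of glued faces -/
def GS (f : V ↪ W) (a b : W) (𝓕 G : Finset (Finset V)) : Finset (Finset W) :=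
  𝓕.image (fun F => F.map f) ∪ (G.image (fun F => insert a (F.map f)) ∪
    G.image (fun F => insert b (F.map f)))

theorem mem_FS {𝓕 : Finset (Finset V)} {s : Finset W} : s ∈ FS f a b 𝓕 ↔
    (∃ F ∈ 𝓕, insert a (F.map f) = s) ∨ (∃ F ∈ 𝓕, insert b (F.map f) = s) := by
  simp only [FS, mem_union, mem_image]

theorem mem_GS {𝓕 G : Finset (Finset V)} {s : Finset W} : s ∈ GS f a b 𝓕 G ↔
    (∃ F ∈ 𝓕, F.map f = s) ∨ (∃ F ∈ G, insert a (F.map f) = s) ∨
      (∃ F ∈ G, insert b (F.map f) = s) := by
  simp only [GS, mem_union, mem_image]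

theorem FS_comm {𝓕 : Finset (Finset V)} : FS f a b 𝓕 = FS f b a 𝓕 := union_comm _ _

theorem GS_comm {𝓕 G : Finset (Finset V)} : GS f a b 𝓕 G = GS f b a 𝓕 G := by
  unfold GS
  rw [union_comm (G.image fun F => insert a (F.map f))]

theorem A_mem_FS (h : Pos f a b) {𝓕 : Finset (Finset V)} {F : Finset V} :
    insert a (F.map f) ∈ FS f a b 𝓕 ↔ F ∈ 𝓕 := by
  rw [mem_FS]
  constructor
  · rintro (⟨G, hG, e⟩ | ⟨G, hG, e⟩)
    · rw [← A_inj h e]; exact hG
    · exact absurd e.symm (A_ne_B h F G)
  · exact fun hF => Or.inl ⟨F, hF, rfl⟩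

theorem B_mem_FS (h : Pos f a b) {𝓕 : Finset (Finset V)} {F : Finset V} :
    insert b (F.map f) ∈ FS f a b 𝓕 ↔ F ∈ 𝓕 := by
  rw [FS_comm]; exact A_mem_FS h.symm

theorem A_mem_GS (h : Pos f a b) {𝓕 G : Finset (Finset V)} {F : Finset V} :
    insert a (F.map f) ∈ GS f a b 𝓕 G ↔ F ∈ G := by
  rw [mem_GS]
  constructor
  · rintro (⟨X, hX, e⟩ | ⟨X, hX, e⟩ | ⟨X, hX, e⟩)
    · exact absurd e.symm (A_ne_up h F X)
    · rw [← A_inj h e]; exact hX
    · exact absurd e.symm (A_ne_B h F X)
  · exact fun hF => Or.inr (Or.inl ⟨F, hF, rfl⟩)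

theorem B_mem_GS (h : Pos f a b) {𝓕 G : Finset (Finset V)} {F : Finset V} :
    insert b (F.map f) ∈ GS f a b 𝓕 G ↔ F ∈ G := by
  rw [GS_comm]; exact A_mem_GS h.symm

theorem up_mem_GS (h : Pos f a b) {𝓕 G : Finset (Finset V)} {F : Finset V} :
    F.map f ∈ GS f a b 𝓕 G ↔ F ∈ 𝓕 := by
  rw [mem_GS]
  constructor
  · rintro (⟨X, hX, e⟩ | ⟨X, hX, e⟩ | ⟨X, hX, e⟩)
    · rw [← up_inj e]; exact hX
    · exact absurd e (A_ne_up h X F)
    · exact absurd e (A_ne_up h.symm X F)
  · exact fun hF => Or.inl ⟨F, hF, rfl⟩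

theorem SameFace.mono {𝓕 𝓕' G G' : Finset (Finset W)} {A A' F F' : Finset W} (h1 : 𝓕 ⊆ 𝓕')
    (h2 : G ⊆ G') (h3 : A' ⊆ A) (h : SameFace 𝓕 G A F F') : SameFace 𝓕' G' A' F F' := by
  unfold SameFace at h ⊢
  induction h with
  | refl => exact Relation.ReflTransGen.refl
  | tail _ h5 ih =>
    obtain ⟨hX, hY, R, hR, hAR, hRX, hRY⟩ := h5
    exact ih.tail ⟨h1 hX, h1 hY, R, h2 hR, h3.trans hAR, hRX, hRY⟩

theorem SameFace.single {𝓕 G : Finset (Finset W)} {A F F' R : Finset W} (hF : F ∈ 𝓕)
    (hF' : F' ∈ 𝓕) (hR : R ∈ G) (hA : A ⊆ R) (h1 : R ⊆ F) (h2 : R ⊆ F') : SameFace 𝓕 G A F F' :=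
  Relation.ReflTransGen.single ⟨hF, hF', R, hR, hA, h1, h2⟩

theorem SameFace.liftA (h : Pos f a b) {𝓕 G : Finset (Finset V)} {A F F' : Finset V}
    (hs : SameFace 𝓕 G A F F') :
    SameFace (FS f a b 𝓕) (GS f a b 𝓕 G) (insert a (A.map f)) (insert a (F.map f))
      (insert a (F'.map f)) := by
  unfold SameFace at hs ⊢
  induction hs with
  | refl => exact Relation.ReflTransGen.refl
  | tail _ h5 ih =>
    obtain ⟨hX, hY, R, hR, hAR, hRX, hRY⟩ := h5
    exact ih.tail ⟨(A_mem_FS h).2 hX, (A_mem_FS h).2 hY, insert a (R.map f), (A_mem_GS h).2 hR,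
      (A_sub h).2 hAR, (A_sub h).2 hRX, (A_sub h).2 hRY⟩

theorem SameFace.liftB (h : Pos f a b) {𝓕 G : Finset (Finset V)} {A F F' : Finset V}
    (hs : SameFace 𝓕 G A F F') :
    SameFace (FS f a b 𝓕) (GS f a b 𝓕 G) (insert b (A.map f)) (insert b (F.map f))
      (insert b (F'.map f)) := by
  rw [FS_comm, GS_comm]
  exact SameFace.liftA h.symm hs

theorem stage_sub {𝓕 G : Finset (Finset V)} (hst : LCStage d K 𝓕 G) : ∀ F ∈ 𝓕, IsFacet K F := by
  induction hst with
  | start F hF =>
    intro F' hF'
    rw [mem_singleton] at hF'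
    rw [hF']; exact hF
  | attach 𝓕 G F F' R _ _ hF' _ _ _ _ _ ih =>
    intro X hX
    rw [mem_insert] at hX
    rcases hX with rfl | hX
    · exact hF'
    · exact ih X hX
  | glue 𝓕 G F F' R A _ _ _ _ _ _ _ _ _ _ _ ih => exact ih

theorem stage_sus (h : Pos f a b) (hcard : ∀ F, IsFacet K F → F.card = d + 1)
    {𝓕 G : Finset (Finset V)} (hst : LCStage d K 𝓕 G) :
    LCStage (d + 1) (sus f a b K) (FS f a b 𝓕) (GS f a b 𝓕 G) := by
  induction hst with
  | start F hF =>
    have h1 := LCStage.start (d := d + 1) (K := sus f a b K) (insert a (F.map f)) (facet_A h hF)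
    have h2 := LCStage.attach _ _ (insert a (F.map f)) (insert b (F.map f)) (F.map f) h1
      (mem_singleton_self _) (facet_B h hF)
      (by rw [mem_singleton]; exact fun e => A_ne_B h F F e.symm)
      (by rw [card_map, hcard F hF]) (subset_insert _ _) (subset_insert _ _) (by simp)
    convert h2 using 1
    · ext s
      simp only [mem_FS, mem_singleton, exists_eq_left, mem_insert]
      tauto
    · ext s
      simp only [mem_GS, mem_singleton, exists_eq_left, notMem_empty, false_and, exists_false,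
        or_false, mem_insert]
      tauto
  | attach 𝓕 G F F' R hst hF hF' hn hR h1 h2 hG ih =>
    have hFF' : F ≠ F' := fun e => hn (e ▸ hF)
    -- first simplex
    have s1 := LCStage.attach _ _ (insert a (F.map f)) (insert a (F'.map f)) (insert a (R.map f)) ih
      ((A_mem_FS h).2 hF) (facet_A h hF') (fun hc => hn ((A_mem_FS h).1 hc))
      (by rw [card_A h, hR]) ((A_sub h).2 h1) ((A_sub h).2 h2) (fun hc => hG ((A_mem_GS h).1 hc))
    -- second simplex
    have s2 := LCStage.attach _ _ (insert a (F'.map f)) (insert b (F'.map f)) (F'.map f) s1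
      (mem_insert_self _ _) (facet_B h hF')
      (by
        rw [mem_insert, not_or]
        exact ⟨fun e => A_ne_B h F' F' e.symm, fun hc => hn ((B_mem_FS h).1 hc)⟩)
      (by rw [card_map, hcard F' hF']) (subset_insert _ _) (subset_insert _ _)
      (by
        rw [mem_insert, not_or]
        exact ⟨fun e => A_ne_up h R F' e.symm, fun hc => hn ((up_mem_GS h).1 hc)⟩)
    -- glueing
    have s3 := LCStage.glue _ _ (insert b (F.map f)) (insert b (F'.map f)) (insert b (R.map f))
      (R.map f) s2
      (mem_insert_of_mem (mem_insert_of_mem ((B_mem_FS h).2 hF))) (mem_insert_self _ _)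
      (fun e => hFF' (B_inj h e)) (by rw [card_B h, hR]) ((A_sub h.symm).2 h1)
      ((A_sub h.symm).2 h2)
      (by
        rw [mem_insert, mem_insert, not_or, not_or]
        exact ⟨A_ne_up h.symm R F', fun e => A_ne_B h R R e.symm,
          fun hc => hG ((B_mem_GS h).1 hc)⟩)
      (by rw [card_map, hR]) (subset_insert _ _)
      (by
        have t1 : SameFace (insert (insert b (F'.map f)) (insert (insert a (F'.map f))
            (FS f a b 𝓕))) (insert (F'.map f) (insert (insert a (R.map f)) (GS f a b 𝓕 G)))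
            (R.map f) (insert b (F.map f)) (insert a (F.map f)) :=
          SameFace.single (R := F.map f)
            (mem_insert_of_mem (mem_insert_of_mem ((B_mem_FS h).2 hF)))
            (mem_insert_of_mem (mem_insert_of_mem ((A_mem_FS h).2 hF)))
            (mem_insert_of_mem (mem_insert_of_mem ((up_mem_GS h).2 hF)))
            (map_subset_map.2 h1) (subset_insert _ _) (subset_insert _ _)
        have t2 : SameFace (insert (insert b (F'.map f)) (insert (insert a (F'.map f))
            (FS f a b 𝓕))) (insert (F'.map f) (insert (insert a (R.map f)) (GS f a b 𝓕 G)))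
            (R.map f) (insert a (F.map f)) (insert a (F'.map f)) :=
          SameFace.single (R := insert a (R.map f))
            (mem_insert_of_mem (mem_insert_of_mem ((A_mem_FS h).2 hF)))
            (mem_insert_of_mem (mem_insert_self _ _))
            (mem_insert_of_mem (mem_insert_self _ _))
            (subset_insert _ _) ((A_sub h).2 h1) ((A_sub h).2 h2)
        have t3 : SameFace (insert (insert b (F'.map f)) (insert (insert a (F'.map f))
            (FS f a b 𝓕))) (insert (F'.map f) (insert (insert a (R.map f)) (GS f a b 𝓕 G)))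
            (R.map f) (insert a (F'.map f)) (insert b (F'.map f)) :=
          SameFace.single (R := F'.map f)
            (mem_insert_of_mem (mem_insert_self _ _))
            (mem_insert_self _ _)
            (mem_insert_self _ _)
            (map_subset_map.2 h2) (subset_insert _ _) (subset_insert _ _)
        exact (t1.trans t2).trans t3)
    convert s3 using 1
    · ext s
      simp only [mem_FS, mem_insert, exists_eq_or_imp]
      constructor
      · rintro ((e | e) | (e | e))
        · exact Or.inr (Or.inl e.symm)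
        · exact Or.inr (Or.inr (Or.inl e))
        · exact Or.inl e.symm
        · exact Or.inr (Or.inr (Or.inr e))
      · rintro (e | e | e | e)
        · exact Or.inr (Or.inl e.symm)
        · exact Or.inl (Or.inl e.symm)
        · exact Or.inl (Or.inr e)
        · exact Or.inr (Or.inr e)
    · ext s
      simp only [mem_GS, mem_insert, exists_eq_or_imp]
      constructor
      · rintro ((e | e) | (e | e) | (e | e))
        · exact Or.inr (Or.inl e.symm)
        · exact Or.inr (Or.inr (Or.inr (Or.inl e)))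
        · exact Or.inr (Or.inr (Or.inl e.symm))
        · exact Or.inr (Or.inr (Or.inr (Or.inr (Or.inl e))))
        · exact Or.inl e.symm
        · exact Or.inr (Or.inr (Or.inr (Or.inr (Or.inr e))))
      · rintro (e | e | e | e | e | e)
        · exact Or.inr (Or.inr (Or.inl e.symm))
        · exact Or.inl (Or.inl e.symm)
        · exact Or.inr (Or.inl (Or.inl e.symm))
        · exact Or.inl (Or.inr e)
        · exact Or.inr (Or.inl (Or.inr e))
        · exact Or.inr (Or.inr (Or.inr e))
  | glue 𝓕 G F F' R A hst hF hF' hne hR h1 h2 hG hA hAR hs ih =>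
    have s1 := LCStage.glue _ _ (insert a (F.map f)) (insert a (F'.map f)) (insert a (R.map f))
      (insert a (A.map f)) ih ((A_mem_FS h).2 hF) ((A_mem_FS h).2 hF')
      (fun e => hne (A_inj h e)) (by rw [card_A h, hR]) ((A_sub h).2 h1) ((A_sub h).2 h2)
      (fun hc => hG ((A_mem_GS h).1 hc)) (by rw [card_A h, hA]) ((A_sub h).2 hAR)
      (SameFace.liftA h hs)
    have s2 := LCStage.glue _ _ (insert b (F.map f)) (insert b (F'.map f)) (insert b (R.map f))
      (insert b (A.map f)) s1 ((B_mem_FS h).2 hF) ((B_mem_FS h).2 hF')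
      (fun e => hne (B_inj h e)) (by rw [card_B h, hR]) ((A_sub h.symm).2 h1)
      ((A_sub h.symm).2 h2)
      (by
        rw [mem_insert, not_or]
        exact ⟨fun e => A_ne_B h R R e.symm, fun hc => hG ((B_mem_GS h).1 hc)⟩)
      (by rw [card_B h, hA]) ((A_sub h.symm).2 hAR)
      (SameFace.mono (Subset.refl _) (subset_insert _ _) (Subset.refl _) (SameFace.liftB h hs))
    convert s2 using 1
    ext s
    simp only [mem_GS, mem_insert, exists_eq_or_imp]
    constructor
    · rintro (e | (e | e) | (e | e))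
      · exact Or.inr (Or.inr (Or.inl e))
      · exact Or.inr (Or.inl e.symm)
      · exact Or.inr (Or.inr (Or.inr (Or.inl e)))
      · exact Or.inl e.symm
      · exact Or.inr (Or.inr (Or.inr (Or.inr e)))
    · rintro (e | e | e | e | e)
      · exact Or.inr (Or.inr (Or.inl e.symm))
      · exact Or.inr (Or.inl (Or.inl e.symm))
      · exact Or.inl e
      · exact Or.inr (Or.inl (Or.inr e))
      · exact Or.inr (Or.inr (Or.inr e))

theorem isLC_sus (h : Pos f a b) (hL : IsLC d K) : IsLC (d + 1) (sus f a b K) := by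
  obtain ⟨hcard, htwo, 𝓕, G, hst, hall, hsame⟩ := hL
  refine ⟨?_, ?_, FS f a b 𝓕, GS f a b 𝓕 G, stage_sus h hcard hst, ?_, ?_⟩
  · intro X hX
    rcases facet_sus h hX with ⟨F, hF, rfl⟩ | ⟨F, hF, rfl⟩
    · rw [card_A h, hcard F hF]
    · rw [card_B h, hcard F hF]
  · intro R hR X Y Z hX hY hZ hRX hRY hRZ
    -- the facets containing `a`
    have key : ∀ (a b : W), Pos f a b → a ∈ R → (∀ X, IsFacet (sus f a b K) X → R ⊆ X →
        ∃ F, IsFacet K F ∧ insert a (F.map f) = X) := by
      intro a b h ha X hX hRX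
      rcases facet_sus h hX with ⟨F, hF, e⟩ | ⟨F, hF, e⟩
      · exact ⟨F, hF, e⟩
      · exfalso
        have := hRX ha
        rw [← e, mem_insert] at this
        rcases this with h1 | h1
        · exact h.hab h1
        · exact a_notMem h F h1
    have fin : ∀ (a b : W), Pos f a b → a ∈ R → ∀ F1 F2 F3 : Finset V, IsFacet K F1 →
        IsFacet K F2 → IsFacet K F3 → R ⊆ insert a (F1.map f) → R ⊆ insert a (F2.map f) →
        R ⊆ insert a (F3.map f) → F1 = F2 ∨ F1 = F3 ∨ F2 = F3 := by
      intro a b h ha F1 F2 F3 h1 h2 h3 r1 r2 r3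
      let R' : Finset V := F1.filter (fun v => f v ∈ R)
      have hR' : insert a (R'.map f) = R := by
        ext x
        rw [mem_insert, mem_map]
        constructor
        · rintro (rfl | ⟨v, hv, rfl⟩)
          · exact ha
          · exact (mem_filter.1 hv).2
        · intro hx
          have := r1 hx
          rw [mem_insert, mem_map] at this
          rcases this with h4 | ⟨v, hv, rfl⟩
          · exact Or.inl h4
          · exact Or.inr ⟨v, mem_filter.2 ⟨hv, hx⟩, rfl⟩
      rw [← hR'] at r1 r2 r3 hR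
      rw [card_A h] at hR
      exact htwo R' (by omega) F1 F2 F3 h1 h2 h3 ((A_sub h).1 r1) ((A_sub h).1 r2) ((A_sub h).1 r3)
    by_cases ha : a ∈ R
    · obtain ⟨F1, h1, rfl⟩ := key a b h ha X hX hRX
      obtain ⟨F2, h2, rfl⟩ := key a b h ha Y hY hRY
      obtain ⟨F3, h3, rfl⟩ := key a b h ha Z hZ hRZ
      rcases fin a b h ha F1 F2 F3 h1 h2 h3 hRX hRY hRZ with e | e | e <;> rw [e] <;> simp
    by_cases hb : b ∈ R
    · rw [sus_comm] at hX hY hZ
      obtain ⟨F1, h1, rfl⟩ := key b a h.symm hb X hX hRX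
      obtain ⟨F2, h2, rfl⟩ := key b a h.symm hb Y hY hRY
      obtain ⟨F3, h3, rfl⟩ := key b a h.symm hb Z hZ hRZ
      rcases fin b a h.symm hb F1 F2 F3 h1 h2 h3 hRX hRY hRZ with e | e | e <;> rw [e] <;> simp
    · have hup : ∀ X, IsFacet (sus f a b K) X → R ⊆ X → ∃ F : Finset V, R = F.map f ∧
          (insert a (F.map f) = X ∨ insert b (F.map f) = X) := by
        intro X hX hRX
        rcases facet_sus h hX with ⟨F, hF, e⟩ | ⟨F, hF, e⟩
        · refine ⟨F, ?_, Or.inl e⟩
          refine eq_of_subset_of_card_le ?_ (by rw [card_map, hR, hcard F hF])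
          intro x hx
          have := hRX hx
          rw [← e, mem_insert] at this
          exact this.resolve_left (fun h' => ha (h' ▸ hx))
        · refine ⟨F, ?_, Or.inr e⟩
          refine eq_of_subset_of_card_le ?_ (by rw [card_map, hR, hcard F hF])
          intro x hx
          have := hRX hx
          rw [← e, mem_insert] at this
          exact this.resolve_left (fun h' => hb (h' ▸ hx))
      obtain ⟨F1, e1, h1⟩ := hup X hX hRX
      obtain ⟨F2, e2, h2⟩ := hup Y hY hRY
      obtain ⟨F3, e3, h3⟩ := hup Z hZ hRZ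
      rw [← e1] at h1
      rw [← e2] at h2
      rw [← e3] at h3
      rcases h1 with h1 | h1 <;> rcases h2 with h2 | h2 <;> rcases h3 with h3 | h3 <;>
        rw [← h1, ← h2, ← h3] <;> simp
  · intro X hX
    rcases facet_sus h hX with ⟨F, hF, rfl⟩ | ⟨F, hF, rfl⟩
    · exact (A_mem_FS h).2 (hall F hF)
    · exact (B_mem_FS h).2 (hall F hF)
  · -- same faces
    have caseA : ∀ (a b : W), Pos f a b → ∀ s ∈ K, ∀ X ∈ FS f a b 𝓕, ∀ Y ∈ FS f a b 𝓕,
        insert a (s.map f) ⊆ X → insert a (s.map f) ⊆ Y →
        SameFace (FS f a b 𝓕) (GS f a b 𝓕 G) (insert a (s.map f)) X Y := by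
      intro a b h s hs X hX Y hY hsX hsY
      have hform : ∀ X ∈ FS f a b 𝓕, insert a (s.map f) ⊆ X →
          ∃ F ∈ 𝓕, insert a (F.map f) = X := by
        intro X hX hsX
        rcases mem_FS.1 hX with h1 | ⟨F, hF, rfl⟩
        · exact h1
        · exfalso
          have := hsX (mem_insert_self _ _)
          rw [mem_insert] at this
          rcases this with h1 | h1
          · exact h.hab h1
          · exact a_notMem h F h1
      obtain ⟨F, hF, rfl⟩ := hform X hX hsX
      obtain ⟨F', hF', rfl⟩ := hform Y hY hsY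
      exact SameFace.liftA h (hsame s hs F hF F' hF' ((A_sub h).1 hsX) ((A_sub h).1 hsY))
    intro s hs X hX Y hY hsX hsY
    rcases mem_sus.1 hs with ⟨σ, hσ, rfl⟩ | ⟨σ, hσ, rfl⟩ | ⟨σ, hσ, rfl⟩
    · -- to the upper side
      have hside : ∀ X ∈ FS f a b 𝓕, σ.map f ⊆ X → ∃ F ∈ 𝓕, σ ⊆ F ∧
          SameFace (FS f a b 𝓕) (GS f a b 𝓕 G) (σ.map f) X (insert a (F.map f)) ∧
          SameFace (FS f a b 𝓕) (GS f a b 𝓕 G) (σ.map f) (insert a (F.map f)) X := by
        intro X hX hsX
        rcases mem_FS.1 hX with ⟨F, hF, rfl⟩ | ⟨F, hF, rfl⟩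
        · refine ⟨F, hF, ?_, Relation.ReflTransGen.refl, Relation.ReflTransGen.refl⟩
          exact (A_sub h).1 (insert_subset (mem_insert_self _ _) hsX)
        · have hσF : σ ⊆ F := (A_sub h.symm).1 (insert_subset (mem_insert_self _ _) hsX)
          refine ⟨F, hF, hσF, ?_, ?_⟩
          · exact SameFace.single ((B_mem_FS h).2 hF) ((A_mem_FS h).2 hF) ((up_mem_GS h).2 hF)
              (map_subset_map.2 hσF) (subset_insert _ _) (subset_insert _ _)
          · exact SameFace.single ((A_mem_FS h).2 hF) ((B_mem_FS h).2 hF) ((up_mem_GS h).2 hF)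
              (map_subset_map.2 hσF) (subset_insert _ _) (subset_insert _ _)
      obtain ⟨F, hF, hσF, t1, -⟩ := hside X hX hsX
      obtain ⟨F', hF', hσF', -, t2⟩ := hside Y hY hsY
      have t3 := SameFace.mono (A' := σ.map f) (Subset.refl _) (Subset.refl _) (subset_insert _ _)
        (caseA a b h σ hσ _ ((A_mem_FS h).2 hF) _ ((A_mem_FS h).2 hF')
          ((A_sub h).2 hσF) ((A_sub h).2 hσF'))
      exact (t1.trans t3).trans t2
    · exact caseA a b h σ hσ X hX Y hY hsX hsY
    · rw [FS_comm] at hX hY ⊢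
      rw [GS_comm]
      exact caseA b a h.symm σ hσ X hX Y hY hsX hsY

end lc

section evas
variable {f : V ↪ W} {a b : W} {K : Finset (Finset V)}

theorem nonEvasive_of_map {L : Finset (Finset W)} (hL : NonEvasive L) :
    ∀ K : Finset (Finset V), IsCx K → L = K.image (fun F : Finset V => F.map f) →
      NonEvasive K := by
  induction hL with
  | point v =>
    intro K hK hKL
    have h1 : ({v} : Finset W) ∈ K.image (fun F : Finset V => F.map f) := by rw [← hKL]; simp
    obtain ⟨F, hF, hFv⟩ := mem_image.1 h1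
    have h2 : F.card = 1 := by
      rw [← card_map f]
      have : (F.map f) = {v} := hFv
      rw [this, card_singleton]
    obtain ⟨v', rfl⟩ := card_eq_one.1 h2
    have : K = {∅, {v'}} := by
      ext G
      rw [mem_insert, mem_singleton]
      constructor
      · intro hG
        have h3 : G.map f ∈ ({∅, {v}} : Finset (Finset W)) := by
          rw [hKL]; exact mem_image_of_mem _ hG
        rw [mem_insert, mem_singleton] at h3
        rcases h3 with h3 | h3
        · left; exact map_eq_empty.1 h3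
        · right
          exact map_injective f (h3.trans hFv.symm)
      · rintro (rfl | rfl)
        · exact hK.1
        · exact hF
    rw [this]
    exact NonEvasive.point v'
  | step L v hv _ _ ihd ihl =>
    intro K hK hKL
    have h1 : ({v} : Finset W) ∈ K.image (fun F : Finset V => F.map f) := by rw [← hKL]; exact hv
    obtain ⟨F, hF, hFv⟩ := mem_image.1 h1
    have h2 : F.card = 1 := by
      rw [← card_map f]
      have : (F.map f) = {v} := hFv
      rw [this, card_singleton]
    obtain ⟨v', rfl⟩ := card_eq_one.1 h2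
    have hv' : f v' = v := by
      have : ({v'} : Finset V).map f = {v} := hFv
      rw [map_singleton] at this
      exact singleton_injective this
    subst hv'
    have hmem : ∀ G : Finset V, f v' ∈ G.map f ↔ v' ∈ G := fun G => mem_map' f
    refine NonEvasive.step K v' hF (ihd _ (hK.del v') ?_) (ihl _ (hK.link hF) ?_)
    · ext s
      rw [mem_del, hKL, mem_image, mem_image]
      constructor
      · rintro ⟨⟨G, hG, rfl⟩, h3⟩
        exact ⟨G, mem_del.2 ⟨hG, fun h4 => h3 ((hmem G).2 h4)⟩, rfl⟩
      · rintro ⟨G, hG, rfl⟩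
        rw [mem_del] at hG
        exact ⟨⟨G, hG.1, rfl⟩, fun h4 => hG.2 ((hmem G).1 h4)⟩
    · ext s
      simp only [link, mem_filter, mem_image, hKL]
      constructor
      · rintro ⟨⟨G, hG, rfl⟩, h3, ⟨G', hG', h4⟩⟩
        refine ⟨G, ⟨hG, fun h5 => h3 ((hmem G).2 h5), ?_⟩, rfl⟩
        have : G' = insert v' G := map_injective f (by rw [map_insert]; exact h4)
        rw [← this]; exact hG'
      · rintro ⟨G, ⟨hG, h3, h4⟩, rfl⟩
        exact ⟨⟨G, hG, rfl⟩, fun h5 => h3 ((hmem G).1 h5), insert v' G, h4, map_insert f v' G⟩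

end evas

end Pool.Agent.Y857.LB
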