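import Mathlib
import Pool.Agent.Y857.LB.Lc

/-!
# The suspension of a triangulated ball is a triangulated ball
-/

set_option autoImplicit false
set_option linter.unusedSectionVars false

namespace Pool.Agent.Y857.LB

open Finset Pool.Agent.H933R3

/-- the vertex map into the suspension -/
def up (n : ℕ) : Fin n ↪ Fin (n + 2) :=
  ⟨fun i => i.succ.succ, fun _ _ h => Fin.succ_injective _ (Fin.succ_injective _ h)⟩

theorem pos_up (n : ℕ) : Pos (up n) (0 : Fin (n + 2)) (Fin.succ 0) := by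
  refine ⟨fun v h => ?_, fun v h => ?_, (Fin.succ_ne_zero _).symm⟩
  · have h' : v.succ.succ = (0 : Fin (n + 2)) := h
    exact Fin.succ_ne_zero v.succ h'
  · have h' : v.succ.succ = (Fin.succ 0 : Fin (n + 2)) := h
    exact Fin.succ_ne_zero v (Fin.succ_injective _ h')

/-- two quotients of a compact space with the same fibres are homeomorphic -/
theorem homeo_of_ker {P X Y : Type} [TopologicalSpace P] [CompactSpace P] [TopologicalSpace X]
    [T2Space X] [TopologicalSpace Y] [T2Space Y] (q1 : P → X) (q2 : P → Y) (h1 : Continuous q1)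
    (h2 : Continuous q2) (s1 : Function.Surjective q1) (s2 : Function.Surjective q2)
    (hk : ∀ p p', q1 p = q1 p' ↔ q2 p = q2 p') : Nonempty (X ≃ₜ Y) := by
  let f1 : C(P, X) := ⟨q1, h1⟩
  let f2 : C(P, Y) := ⟨q2, h2⟩
  have Q1 : Topology.IsQuotientMap f1 := Topology.IsQuotientMap.of_surjective_continuous s1 h1
  have Q2 : Topology.IsQuotientMap f2 := Topology.IsQuotientMap.of_surjective_continuous s2 h2
  have e1 := Q1.homeomorph
  have e2 := Q2.homeomorph
  have hs : Setoid.ker f1 = Setoid.ker f2 := by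
    ext p p'
    exact hk p p'
  rw [hs] at e1
  exact ⟨e1.symm.trans e2⟩

/-- the double cone over the ball -/
def D (d : ℕ) : Set (EuclideanSpace ℝ (Fin d) × ℝ) := {p | ‖p.1‖ + |p.2| ≤ 1}

theorem D_convex (d : ℕ) : Convex ℝ (D d) := by
  intro p hp q hq s t hs ht hst
  have hp' : ‖p.1‖ + |p.2| ≤ 1 := hp
  have hq' : ‖q.1‖ + |q.2| ≤ 1 := hq
  show ‖s • p.1 + t • q.1‖ + |s • p.2 + t • q.2| ≤ 1
  have h1 : ‖s • p.1 + t • q.1‖ ≤ s * ‖p.1‖ + t * ‖q.1‖ := by
    refine (norm_add_le _ _).trans ?_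
    rw [norm_smul, norm_smul, Real.norm_of_nonneg hs, Real.norm_of_nonneg ht]
  have h2 : |s • p.2 + t • q.2| ≤ s * |p.2| + t * |q.2| := by
    refine (abs_add_le _ _).trans ?_
    rw [smul_eq_mul, smul_eq_mul, abs_mul, abs_mul, abs_of_nonneg hs, abs_of_nonneg ht]
  nlinarith

theorem D_closed (d : ℕ) : IsClosed (D d) := by
  apply isClosed_le
  · fun_prop
  · fun_prop

theorem D_bounded (d : ℕ) : Bornology.IsBounded (D d) := by
  apply Metric.isBounded_closedBall (x := (0 : EuclideanSpace ℝ (Fin d) × ℝ)) (r := 1) |>.subset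
  intro p hp
  have hp' : ‖p.1‖ + |p.2| ≤ 1 := hp
  rw [mem_closedBall_zero_iff, Prod.norm_def]
  apply max_le
  · have := abs_nonneg p.2
    linarith
  · rw [Real.norm_eq_abs]
    have := norm_nonneg p.1
    linarith

theorem D_int (d : ℕ) : (interior (D d)).Nonempty := by
  refine ⟨0, ?_⟩
  have ho : IsOpen {p : EuclideanSpace ℝ (Fin d) × ℝ | ‖p.1‖ + |p.2| < 1} := by
    apply isOpen_lt
    · fun_prop
    · fun_prop
  refine interior_maximal (fun p hp => ?_) ho ?_
  · have hp' : ‖p.1‖ + |p.2| < 1 := hp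
    exact hp'.le
  · show ‖(0 : EuclideanSpace ℝ (Fin d) × ℝ).1‖ + |(0 : EuclideanSpace ℝ (Fin d) × ℝ).2| < 1
    simp

theorem D_ball (d : ℕ) :
    Nonempty (D d ≃ₜ Metric.closedBall (0 : EuclideanSpace ℝ (Fin (d + 1))) 1) := by
  let e : (EuclideanSpace ℝ (Fin d) × ℝ) ≃L[ℝ] EuclideanSpace ℝ (Fin (d + 1)) :=
    ContinuousLinearEquiv.ofFinrankEq (by simp)
  have hc : Convex ℝ (e.symm ⁻¹' (D d)) := (D_convex d).linear_preimage e.symm.toLinearMap
  have hcl : IsClosed (e.symm ⁻¹' (D d)) := (D_closed d).preimage e.symm.continuous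
  have hint : (interior (e.symm ⁻¹' (D d))).Nonempty := by
    have : interior (e.symm ⁻¹' (D d)) = e.symm ⁻¹' interior (D d) :=
      (e.symm.toHomeomorph.preimage_interior (D d)).symm
    rw [this]
    obtain ⟨x, hx⟩ := D_int d
    refine ⟨e x, ?_⟩
    show e.symm (e x) ∈ interior (D d)
    rw [ContinuousLinearEquiv.symm_apply_apply]
    exact hx
  have himg : e.symm ⁻¹' (D d) = e '' (D d) := by
    ext x
    constructor
    · intro hx
      exact ⟨e.symm x, hx, by simp⟩
    · rintro ⟨y, hy, rfl⟩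
      show e.symm (e y) ∈ D d
      rw [ContinuousLinearEquiv.symm_apply_apply]
      exact hy
  have hb : Bornology.IsBounded (e.symm ⁻¹' (D d)) := by
    rw [himg]
    exact e.lipschitz.isBounded_image (D_bounded d)
  obtain ⟨h, -, h2, -⟩ := exists_homeomorph_image_interior_closure_frontier_eq_unitBall hc hint hb
  rw [hcl.closure_eq, himg] at h2
  exact ⟨((e.toHomeomorph.image (D d)).trans (h.image (e '' D d))).trans (Homeomorph.setCongr h2)⟩

section main
variable {n d : ℕ} {K : Finset (Finset (Fin n))}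

/-- the map onto the realization of the suspension -/
noncomputable def q1 (x : Fin n → ℝ) (r : ℝ) : Fin (n + 2) → ℝ :=
  Fin.cons (max r 0) (Fin.cons (max (-r) 0) (fun i => (1 - |r|) * x i) : Fin (n + 1) → ℝ)

theorem q1_zero (x : Fin n → ℝ) (r : ℝ) : q1 x r 0 = max r 0 := rfl

theorem q1_one (x : Fin n → ℝ) (r : ℝ) : q1 x r (Fin.succ 0) = max (-r) 0 := rfl

theorem q1_up (x : Fin n → ℝ) (r : ℝ) (i : Fin n) : q1 x r i.succ.succ = (1 - |r|) * x i := rfl

theorem max_add (r : ℝ) : max r 0 + max (-r) 0 = |r| := by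
  rcases le_total 0 r with h | h
  · rw [max_eq_left h, max_eq_right (by linarith), abs_of_nonneg h, add_zero]
  · rw [max_eq_right h, max_eq_left (by linarith), abs_of_nonpos h, zero_add]

theorem max_sub (r : ℝ) : max r 0 - max (-r) 0 = r := by
  rcases le_total 0 r with h | h
  · rw [max_eq_left h, max_eq_right (by linarith), sub_zero]
  · rw [max_eq_right h, max_eq_left (by linarith)]; ring

theorem q1_mem {x : Fin n → ℝ} (hx : x ∈ realization K) {r : ℝ} (hr : |r| ≤ 1) :
    q1 x r ∈ realization (sus (up n) (0 : Fin (n + 2)) (Fin.succ 0) K) := by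
  obtain ⟨h0, h1, σ, hσ, h2⟩ := hx
  refine ⟨?_, ?_, ?_⟩
  · intro i
    refine Fin.cases ?_ (fun i => ?_) i
    · rw [q1_zero]; exact le_max_right _ _
    · refine Fin.cases ?_ (fun i => ?_) i
      · rw [q1_one]; exact le_max_right _ _
      · rw [q1_up]; exact mul_nonneg (by linarith) (h0 i)
  · rw [Fin.sum_univ_succ, Fin.sum_univ_succ, q1_zero, q1_one]
    have : ∑ i : Fin n, q1 x r i.succ.succ = (1 - |r|) * ∑ i, x i := by
      rw [mul_sum]
      exact sum_congr rfl fun i _ => q1_up x r i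
    rw [this, h1, ← add_assoc, max_add]
    ring
  · have hz : ∀ i : Fin n, i ∉ σ → q1 x r i.succ.succ = 0 := by
      intro i hi
      rw [q1_up, h2 i hi, mul_zero]
    rcases le_total 0 r with h | h
    · refine ⟨insert 0 (σ.map (up n)), mem_sus.2 (Or.inr (Or.inl ⟨σ, hσ, rfl⟩)), ?_⟩
      intro i
      refine Fin.cases ?_ (fun i => ?_) i
      · intro hi
        exact absurd (mem_insert_self _ _) hi
      · refine Fin.cases ?_ (fun i => ?_) i
        · intro _
          rw [q1_one, max_eq_right (by linarith)]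
        · intro hi
          refine hz i (fun hiσ => hi ?_)
          exact mem_insert_of_mem (mem_map.2 ⟨i, hiσ, rfl⟩)
    · refine ⟨insert (Fin.succ 0) (σ.map (up n)), mem_sus.2 (Or.inr (Or.inr ⟨σ, hσ, rfl⟩)), ?_⟩
      intro i
      refine Fin.cases ?_ (fun i => ?_) i
      · intro _
        rw [q1_zero, max_eq_right h]
      · refine Fin.cases ?_ (fun i => ?_) i
        · intro hi
          exact absurd (mem_insert_self _ _) hi
        · intro hi
          refine hz i (fun hiσ => hi ?_)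
          exact mem_insert_of_mem (mem_map.2 ⟨i, hiσ, rfl⟩)

/-- every point of the realization is in the image, with its height -/
theorem q1_surj {y : Fin (n + 2) → ℝ}
    (hy : y ∈ realization (sus (up n) (0 : Fin (n + 2)) (Fin.succ 0) K)) :
    ∃ r : ℝ, |r| ≤ 1 ∧ (|r| = 1 → ∀ x, q1 x r = y) ∧ (|r| ≠ 1 → ∃ x ∈ realization K, q1 x r = y) := by
  obtain ⟨h0, h1, s, hs, h2⟩ := hy
  rw [Fin.sum_univ_succ, Fin.sum_univ_succ, ← add_assoc] at h1
  have hS : 0 ≤ ∑ i : Fin n, y i.succ.succ := sum_nonneg fun i _ => h0 _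
  -- the face of `K`
  obtain ⟨σ, hσ, hσs⟩ : ∃ σ ∈ K, ∀ i : Fin n, i ∉ σ → y i.succ.succ = 0 := by
    have hne : ∀ (i : Fin n), (i.succ.succ : Fin (n + 2)) ≠ 0 := fun i => (pos_up n).ha i
    have hne' : ∀ (i : Fin n), (i.succ.succ : Fin (n + 2)) ≠ Fin.succ 0 := fun i => (pos_up n).hb i
    have hmm : ∀ (σ : Finset (Fin n)) (i : Fin n), i.succ.succ ∈ σ.map (up n) → i ∈ σ :=
      fun σ i hi => (mem_map' (up n)).1 hi
    rcases mem_sus.1 hs with ⟨σ, hσ, rfl⟩ | ⟨σ, hσ, rfl⟩ | ⟨σ, hσ, rfl⟩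
    · exact ⟨σ, hσ, fun i hi => h2 _ (fun h => hi (hmm σ i h))⟩
    · refine ⟨σ, hσ, fun i hi => h2 _ (fun h => hi ?_)⟩
      rw [mem_insert] at h
      exact hmm σ i (h.resolve_left (hne i))
    · refine ⟨σ, hσ, fun i hi => h2 _ (fun h => hi ?_)⟩
      rw [mem_insert] at h
      exact hmm σ i (h.resolve_left (hne' i))
  -- one of the two suspension coordinates vanishes
  have hab : y 0 = 0 ∨ y (Fin.succ 0) = 0 := by
    rcases mem_sus.1 hs with ⟨σ, hσ, rfl⟩ | ⟨σ, hσ, rfl⟩ | ⟨σ, hσ, rfl⟩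
    · exact Or.inl (h2 _ (a_notMem (pos_up n) σ))
    · right
      apply h2
      rw [mem_insert, not_or]
      exact ⟨(pos_up n).hab.symm, b_notMem (pos_up n) σ⟩
    · left
      apply h2
      rw [mem_insert, not_or]
      exact ⟨(pos_up n).hab, a_notMem (pos_up n) σ⟩
  have ha0 := h0 0
  have hb0 := h0 (Fin.succ 0)
  have hm1 : max (y 0 - y (Fin.succ 0)) 0 = y 0 := by
    rcases hab with h | h
    · rw [h, zero_sub, max_eq_right (by linarith)]
    · rw [h, sub_zero, max_eq_left ha0]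
  have hm2 : max (-(y 0 - y (Fin.succ 0))) 0 = y (Fin.succ 0) := by
    rcases hab with h | h
    · rw [h, zero_sub, neg_neg, max_eq_left hb0]
    · rw [h, sub_zero, max_eq_right (by linarith)]
  have habs : |y 0 - y (Fin.succ 0)| = y 0 + y (Fin.succ 0) := by
    rw [← max_add, hm1, hm2]
  refine ⟨y 0 - y (Fin.succ 0), by rw [habs]; linarith, ?_, ?_⟩
  · intro hr x
    have hz : ∑ i : Fin n, y i.succ.succ = 0 := by rw [habs] at hr; linarith
    have hz' := (sum_eq_zero_iff_of_nonneg fun (i : Fin n) _ => h0 i.succ.succ).1 hz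
    funext i
    refine Fin.cases ?_ (fun i => ?_) i
    · rw [q1_zero, hm1]
    · refine Fin.cases ?_ (fun i => ?_) i
      · rw [q1_one, hm2]
      · rw [q1_up, hr, hz' i (mem_univ _)]
        ring
  · intro hr
    have hlt : 0 < 1 - |y 0 - y (Fin.succ 0)| := by
      have h3 : |y 0 - y (Fin.succ 0)| ≤ 1 := by rw [habs]; linarith
      have := lt_of_le_of_ne h3 hr
      linarith
    refine ⟨fun i => y i.succ.succ / (1 - |y 0 - y (Fin.succ 0)|), ⟨?_, ?_, σ, hσ, ?_⟩, ?_⟩
    · intro i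
      exact div_nonneg (h0 _) hlt.le
    · rw [← sum_div, div_eq_one_iff_eq hlt.ne']
      rw [habs]
      linarith
    · intro i hi
      show y i.succ.succ / _ = 0
      rw [hσs i hi, zero_div]
    · funext i
      refine Fin.cases ?_ (fun i => ?_) i
      · rw [q1_zero, hm1]
      · refine Fin.cases ?_ (fun i => ?_) i
        · rw [q1_one, hm2]
        · rw [q1_up]
          field_simp

theorem q1_eq_iff {x x' : Fin n → ℝ} {r r' : ℝ} :
    q1 x r = q1 x' r' ↔ r = r' ∧ (|r| = 1 ∨ x = x') := by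
  constructor
  · intro h
    have h0 : max r 0 = max r' 0 := congrFun h 0
    have h1 : max (-r) 0 = max (-r') 0 := congrFun h (Fin.succ 0)
    have hr : r = r' := by rw [← max_sub r, ← max_sub r', h0, h1]
    refine ⟨hr, ?_⟩
    subst hr
    by_cases h2 : |r| = 1
    · exact Or.inl h2
    · right
      have h3 : 1 - |r| ≠ 0 := fun h4 => h2 (by linarith)
      funext i
      exact mul_left_cancel₀ h3 (congrFun h i.succ.succ)
  · rintro ⟨rfl, h | rfl⟩
    · funext i
      refine Fin.cases rfl (fun i => ?_) i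
      refine Fin.cases rfl (fun i => ?_) i
      rw [q1_up, q1_up, h]
      ring
    · rfl

theorem isBall_sus (hK : IsBall d K) :
    IsBall (d + 1) (sus (up n) (0 : Fin (n + 2)) (Fin.succ 0) K) := by
  obtain ⟨h⟩ := hK
  have : CompactSpace (Metric.closedBall (0 : EuclideanSpace ℝ (Fin d)) 1) :=
    isCompact_iff_compactSpace.1 (isCompact_closedBall 0 1)
  let P := Metric.closedBall (0 : EuclideanSpace ℝ (Fin d)) 1 × Set.Icc (-1 : ℝ) 1
  let Q1 : P → realization (sus (up n) (0 : Fin (n + 2)) (Fin.succ 0) K) := fun p =>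
    ⟨q1 (h.symm p.1).1 p.2.1, q1_mem (h.symm p.1).2 (abs_le.2 p.2.2)⟩
  let Q2 : P → D d := fun p => ⟨((1 - |p.2.1|) • p.1.1, p.2.1), by
    have h1 : |p.2.1| ≤ 1 := abs_le.2 p.2.2
    have h2 : ‖(p.1.1 : EuclideanSpace ℝ (Fin d))‖ ≤ 1 := mem_closedBall_zero_iff.1 p.1.2
    show ‖(1 - |p.2.1|) • (p.1.1 : EuclideanSpace ℝ (Fin d))‖ + |p.2.1| ≤ 1
    rw [norm_smul, Real.norm_of_nonneg (by linarith)]
    nlinarith [norm_nonneg (p.1.1 : EuclideanSpace ℝ (Fin d))]⟩
  have c1 : Continuous Q1 := by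
    apply Continuous.subtype_mk
    apply continuous_pi
    intro i
    have hr : Continuous fun p : P => (p.2.1 : ℝ) := continuous_subtype_val.comp continuous_snd
    have hx : ∀ j : Fin n, Continuous fun p : P => (h.symm p.1).1 j := fun j =>
      (continuous_apply j).comp (continuous_subtype_val.comp (h.symm.continuous.comp continuous_fst))
    refine Fin.cases ?_ (fun i => ?_) i
    · show Continuous fun p : P => max p.2.1 0
      exact hr.max continuous_const
    · refine Fin.cases ?_ (fun i => ?_) i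
      · show Continuous fun p : P => max (-p.2.1) 0
        exact hr.neg.max continuous_const
      · show Continuous fun p : P => (1 - |p.2.1|) * (h.symm p.1).1 i
        exact (continuous_const.sub hr.abs).mul (hx i)
  have c2 : Continuous Q2 := by
    apply Continuous.subtype_mk
    have hr : Continuous fun p : P => (p.2.1 : ℝ) := continuous_subtype_val.comp continuous_snd
    have hx : Continuous fun p : P => (p.1.1 : EuclideanSpace ℝ (Fin d)) :=
      continuous_subtype_val.comp continuous_fst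
    exact ((continuous_const.sub hr.abs).smul hx).prodMk hr
  have s1 : Function.Surjective Q1 := by
    rintro ⟨y, hy⟩
    obtain ⟨r, hr, h1, h2⟩ := q1_surj hy
    by_cases hr1 : |r| = 1
    · refine ⟨(⟨0, by simp⟩, ⟨r, abs_le.1 hr⟩), ?_⟩
      exact Subtype.ext (h1 hr1 _)
    · obtain ⟨x, hx, hxy⟩ := h2 hr1
      refine ⟨(h ⟨x, hx⟩, ⟨r, abs_le.1 hr⟩), ?_⟩
      apply Subtype.ext
      show q1 (h.symm (h ⟨x, hx⟩)).1 r = y
      rw [h.symm_apply_apply]
      exact hxy
  have s2 : Function.Surjective Q2 := by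
    rintro ⟨⟨z, r⟩, hz⟩
    have hz' : ‖z‖ + |r| ≤ 1 := hz
    have hr : |r| ≤ 1 := by linarith [norm_nonneg z]
    by_cases hr1 : |r| = 1
    · refine ⟨(⟨0, by simp⟩, ⟨r, abs_le.1 hr⟩), ?_⟩
      apply Subtype.ext
      have hz0 : z = 0 := by
        rw [hr1] at hz'
        exact norm_eq_zero.1 (le_antisymm (by linarith) (norm_nonneg z))
      show ((1 - |r|) • (0 : EuclideanSpace ℝ (Fin d)), r) = (z, r)
      rw [smul_zero, hz0]
    · have hlt : 0 < 1 - |r| := by
        have := lt_of_le_of_ne hr hr1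
        linarith
      refine ⟨(⟨(1 - |r|)⁻¹ • z, ?_⟩, ⟨r, abs_le.1 hr⟩), ?_⟩
      · rw [mem_closedBall_zero_iff, norm_smul, norm_inv, Real.norm_of_nonneg hlt.le,
          inv_mul_le_iff₀ hlt]
        linarith
      · apply Subtype.ext
        show ((1 - |r|) • ((1 - |r|)⁻¹ • z), r) = (z, r)
        rw [smul_inv_smul₀ hlt.ne']
  have hk : ∀ p p', Q1 p = Q1 p' ↔ Q2 p = Q2 p' := by
    rintro ⟨z, r⟩ ⟨z', r'⟩
    have e1 : Q1 (z, r) = Q1 (z', r') ↔ r.1 = r'.1 ∧ (|r.1| = 1 ∨ z = z') := by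
      rw [Subtype.ext_iff]
      show q1 (h.symm z).1 r.1 = q1 (h.symm z').1 r'.1 ↔ _
      rw [q1_eq_iff]
      have e3 : (h.symm z).1 = (h.symm z').1 ↔ z = z' :=
        Subtype.ext_iff.symm.trans h.symm.injective.eq_iff
      rw [e3]
    have e2 : Q2 (z, r) = Q2 (z', r') ↔ r.1 = r'.1 ∧ (|r.1| = 1 ∨ z = z') := by
      rw [Subtype.ext_iff]
      show ((1 - |r.1|) • z.1, r.1) = ((1 - |r'.1|) • z'.1, r'.1) ↔ _
      rw [Prod.mk.injEq]
      constructor
      · rintro ⟨h1, h2⟩
        refine ⟨h2, ?_⟩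
        rw [← h2] at h1
        by_cases h3 : |r.1| = 1
        · exact Or.inl h3
        · right
          have h4 : 1 - |r.1| ≠ 0 := fun h5 => h3 (by linarith)
          exact Subtype.ext (smul_right_injective _ h4 h1)
      · rintro ⟨h1, h2 | h2⟩
        · refine ⟨?_, h1⟩
          rw [← h1, h2, sub_self, zero_smul, zero_smul]
        · rw [h2, h1]
          exact ⟨rfl, rfl⟩
    rw [e1, e2]
  obtain ⟨e⟩ := homeo_of_ker Q1 Q2 c1 c2 s1 s2 hk
  obtain ⟨e'⟩ := D_ball d
  exact ⟨e.trans e'⟩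

end main

end Pool.Agent.Y857.LB
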