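import Mathlib
import Pool.Agent.H933R3.EvB
import Pool.Agent.Y857.LB.Lc

/-!
# The suspension of an evasive complex is evasive
-/

set_option autoImplicit false
set_option linter.unusedSectionVars false

namespace Pool.Agent.Y857.LB

open Finset Pool.Agent.H933R3

variable {V W : Type} [DecidableEq V] [DecidableEq W] {f : V ↪ W} {a b : W}
  {K : Finset (Finset V)}

theorem isCx_map (hK : IsCx K) : IsCx (K.image (fun F : Finset V => F.map f)) := by
  refine ⟨mem_image.2 ⟨∅, hK.1, by simp⟩, ?_⟩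
  intro s hs t ht
  obtain ⟨F, hF, rfl⟩ := mem_image.1 hs
  refine mem_image.2 ⟨F.filter (fun v => f v ∈ t), hK.2 F hF _ (filter_subset _ _), ?_⟩
  ext x
  rw [mem_map]
  constructor
  · rintro ⟨v, hv, rfl⟩
    exact (mem_filter.1 hv).2
  · intro hx
    obtain ⟨v, hv, rfl⟩ := mem_map.1 (ht hx)
    exact ⟨v, mem_filter.2 ⟨hv, hx⟩, rfl⟩

theorem isSusp_sus (h : Pos f a b) :
    IsSusp a b (K.image (fun F : Finset V => F.map f)) (sus f a b K) := by
  intro s
  rw [mem_sus]
  constructor
  · rintro (⟨F, hF, rfl⟩ | ⟨F, hF, rfl⟩ | ⟨F, hF, rfl⟩)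
    · refine ⟨fun hc => a_notMem h F hc.1, mem_image.2 ⟨F, hF, ?_⟩⟩
      rw [erase_eq_of_notMem (a_notMem h F), erase_eq_of_notMem (b_notMem h F)]
    · refine ⟨fun hc => ?_, mem_image.2 ⟨F, hF, ?_⟩⟩
      · have h1 := hc.2
        rw [mem_insert] at h1
        rcases h1 with h1 | h1
        · exact h.hab h1.symm
        · exact b_notMem h F h1
      · rw [erase_insert (a_notMem h F), erase_eq_of_notMem (b_notMem h F)]
    · refine ⟨fun hc => ?_, mem_image.2 ⟨F, hF, ?_⟩⟩
      · have h1 := hc.1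
        rw [mem_insert] at h1
        rcases h1 with h1 | h1
        · exact h.hab h1
        · exact a_notMem h F h1
      · have h5 : a ∉ insert b (F.map f) := by
          rw [mem_insert, not_or]
          exact ⟨h.hab, a_notMem h F⟩
        rw [erase_eq_of_notMem h5, erase_insert (b_notMem h F)]
  · rintro ⟨hn, hs⟩
    obtain ⟨F, hF, hFs⟩ := mem_image.1 hs
    have hFs' : F.map f = (s.erase a).erase b := hFs
    by_cases ha : a ∈ s
    · have hb : b ∉ s := fun hb => hn ⟨ha, hb⟩
      refine Or.inr (Or.inl ⟨F, hF, ?_⟩)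
      rw [hFs', erase_eq_of_notMem (fun hc => hb (mem_of_mem_erase hc)), insert_erase ha]
    · rw [erase_eq_of_notMem ha] at hFs'
      by_cases hb : b ∈ s
      · refine Or.inr (Or.inr ⟨F, hF, ?_⟩)
        rw [hFs', insert_erase hb]
      · refine Or.inl ⟨F, hF, ?_⟩
        rw [hFs', erase_eq_of_notMem hb]

/-- the suspension of an evasive complex is evasive -/
theorem evasive_sus (h : Pos f a b) (hK : IsCx K) (hev : ¬ NonEvasive K) :
    ¬ NonEvasive (sus f a b K) := by
  intro hs
  apply hev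
  refine nonEvasive_of_map (f := f) ?_ K hK rfl
  refine nonEvasive_of_susp h.hab hs _ (isCx_map hK) ?_ (isSusp_sus h)
  intro s hs'
  obtain ⟨F, -, rfl⟩ := mem_image.1 hs'
  exact ⟨a_notMem h F, b_notMem h F⟩

end Pool.Agent.Y857.LB
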